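import Mathlib

/-!
# MP_78fb5d_an: a weak tiling measure that is not a convex combination of tilings

In `ℤ/24` take `E = {0,4,6,10}`. It tiles `ℤ/24`. The measure `μ` with mass `1` at `0, 8, 16`
and mass `1/2` at `1, 9, 11, 13, 21, 23` is a weak tiling measure for `E` with `μ(0) = 1`.
It is not a convex combination of counting measures of tiling complements: a complement `T`
inside the support of `μ` would contain exactly one element of each of the three pairs
`{1,21}`, `{1,23}`, `{21,23}` (look at the points `1`, `5`, `3`).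
-/

namespace Pool.Agent.Results.MP_78fb5d_an.NotConvex

/-- `μ` is a non-negative weak tiling measure for `E`: `μ ≥ 0` and `1_E * μ = 1`. -/
def IsWeakTiling {M : ℕ} [NeZero M] (E : Finset (ZMod M)) (μ : ZMod M → ℝ) : Prop :=
  (∀ y, 0 ≤ μ y) ∧ ∀ x, ∑ y, (if x - y ∈ E then (1 : ℝ) else 0) * μ y = 1

/-- `T` is a tiling complement of `E`: every `x` is `e + t` in exactly one way. -/
def IsComplement {M : ℕ} (E T : Finset (ZMod M)) : Prop :=
  ∀ x : ZMod M, ∃! p : ZMod M × ZMod M, p.1 ∈ E ∧ p.2 ∈ T ∧ x = p.1 + p.2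

/-- `μ` is a convex combination of counting measures of tiling complements of `E`. -/
def IsConvexCombination {M : ℕ} (E : Finset (ZMod M)) (μ : ZMod M → ℝ) : Prop :=
  ∃ (N : ℕ) (T : Fin N → Finset (ZMod M)) (c : Fin N → ℝ),
    (∀ k, IsComplement E (T k)) ∧ (∀ k, 0 ≤ c k) ∧ ∑ k, c k = 1 ∧
      ∀ x, μ x = ∑ k, c k * (if x ∈ T k then (1 : ℝ) else 0)

/-- twice the measure, with values in `ℕ` -/
def m (y : ZMod 24) : ℕ :=
  if y ∈ ({0, 8, 16} : Finset (ZMod 24)) then 2
  else if y ∈ ({1, 9, 11, 13, 21, 23} : Finset (ZMod 24)) then 1 else 0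

lemma m_conv : ∀ x : ZMod 24,
    ∑ y, (if x - y ∈ ({0, 4, 6, 10} : Finset (ZMod 24)) then 1 else 0) * m y = 2 := by
  decide +kernel

lemma only_pair (T : Finset (ZMod 24)) (hT : IsComplement {0, 4, 6, 10} T)
    (hS : ∀ y ∈ T, m y ≠ 0) (x a b : ZMod 24)
    (hx : ∀ y : ZMod 24, m y ≠ 0 → x - y ∈ ({0, 4, 6, 10} : Finset (ZMod 24)) → y = a ∨ y = b)
    (ha : x - a ∈ ({0, 4, 6, 10} : Finset (ZMod 24)))
    (hb : x - b ∈ ({0, 4, 6, 10} : Finset (ZMod 24))) (hab : a ≠ b) : (a ∈ T ↔ b ∉ T) := by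
  obtain ⟨⟨e, t⟩, ⟨he, ht, hxt⟩, hu⟩ := hT x
  constructor
  · intro h1 h2
    have u1 := hu (x - a, a) ⟨ha, h1, by simp⟩
    have u2 := hu (x - b, b) ⟨hb, h2, by simp⟩
    have : (x - a, a) = (x - b, b) := u1.trans u2.symm
    exact hab (congrArg Prod.snd this)
  · intro h2
    simp only at he ht hxt
    have h3 : x - t ∈ ({0, 4, 6, 10} : Finset (ZMod 24)) := by
      rw [hxt, add_sub_cancel_right]; exact he
    rcases hx t (hS t ht) h3 with h | h
    · rwa [← h]
    · exact absurd (h ▸ ht) h2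

lemma no_complement (T : Finset (ZMod 24)) (hT : IsComplement {0, 4, 6, 10} T)
    (hS : ∀ y ∈ T, m y ≠ 0) : False := by
  have h1 := only_pair T hT hS 1 1 21 (by decide +kernel) (by decide +kernel)
    (by decide +kernel) (by decide +kernel)
  have h2 := only_pair T hT hS 5 1 23 (by decide +kernel) (by decide +kernel)
    (by decide +kernel) (by decide +kernel)
  have h3 := only_pair T hT hS 3 21 23 (by decide +kernel) (by decide +kernel)
    (by decide +kernel) (by decide +kernel)
  tauto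

/-- Q1 is false. There are `M ≥ 1`, a set `E ⊆ ℤ/M` which tiles `ℤ/M`, and a non-negative weak
tiling measure `μ` for `E`, even with `μ(0) = 1` (so that `E` itself is one of the translates
and `μ - δ_0` is a weak tiling of the complement of `E`), which is not a convex combination
of counting measures of tiling complements of `E`. -/
theorem result :
    ∃ (M : ℕ) (_ : NeZero M) (E : Finset (ZMod M)) (μ : ZMod M → ℝ),
      IsWeakTiling E μ ∧ μ 0 = 1 ∧ (∃ T, IsComplement E T) ∧ ¬ IsConvexCombination E μ := by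
  refine ⟨24, inferInstance, {0, 4, 6, 10}, fun y => (m y : ℝ) / 2, ⟨?_, ?_⟩, ?_, ?_, ?_⟩
  · intro y; positivity
  · intro x
    have h := m_conv x
    have h2 : ((∑ y, (if x - y ∈ ({0, 4, 6, 10} : Finset (ZMod 24)) then 1 else 0) * m y : ℕ) : ℝ)
        = 2 := by rw [h]; norm_num
    push_cast at h2
    have h3 : ∑ y, (if x - y ∈ ({0, 4, 6, 10} : Finset (ZMod 24)) then (1:ℝ) else 0) *
        ((m y : ℝ) / 2) =
        (∑ y, (if x - y ∈ ({0, 4, 6, 10} : Finset (ZMod 24)) then (1:ℝ) else 0) * (m y : ℝ)) / 2 := by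
      rw [Finset.sum_div]
      exact Finset.sum_congr rfl fun y _ => by ring
    rw [h3, h2]; norm_num
  · have : m 0 = 2 := by decide +kernel
    simp [this]
  · refine ⟨{0, 8, 16, 1, 9, 17}, ?_⟩
    have key : ∀ x : ZMod 24, ∃ p : ZMod 24 × ZMod 24,
        (p.1 ∈ ({0, 4, 6, 10} : Finset (ZMod 24)) ∧
          p.2 ∈ ({0, 8, 16, 1, 9, 17} : Finset (ZMod 24)) ∧ x = p.1 + p.2) ∧
        ∀ q : ZMod 24 × ZMod 24, (q.1 ∈ ({0, 4, 6, 10} : Finset (ZMod 24)) ∧
          q.2 ∈ ({0, 8, 16, 1, 9, 17} : Finset (ZMod 24)) ∧ x = q.1 + q.2) → q = p := by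
      decide +kernel
    exact key
  · rintro ⟨N, T, c, hT, hc, hs, hμ⟩
    have hk : ∃ k, 0 < c k := by
      by_contra hno
      push Not at hno
      have : ∑ k, c k ≤ 0 := Finset.sum_nonpos fun k _ => hno k
      linarith
    obtain ⟨k, hk⟩ := hk
    refine no_complement (T k) (hT k) fun y hy h0 => ?_
    have h1 := hμ y
    simp only [h0, Nat.cast_zero, zero_div] at h1
    have h2 : c k * (if y ∈ T k then (1:ℝ) else 0) ≤
        ∑ k, c k * (if y ∈ T k then (1 : ℝ) else 0) := by
      apply Finset.single_le_sum (f := fun k => c k * (if y ∈ T k then (1 : ℝ) else 0))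
      · intro j _
        exact mul_nonneg (hc j) (by split_ifs <;> norm_num)
      · exact Finset.mem_univ k
    rw [if_pos hy] at h2
    linarith

end Pool.Agent.Results.MP_78fb5d_an.NotConvex
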